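import Pool.Agent.V8H45.NS.Defs
import Pool.Agent.V8H45.NR.Notice

/-!
# Circuits with frozen NOT gates and arbitrary gates: noticing a change
-/

namespace Pool.Agent.V8H45.NR

open Finset Function Pool.Agent.V8H38.RM

variable {n : ℕ}

theorem mem_wired {C : Prog n} {k : ℕ} : k ∈ C.wired ↔
    ∃ (i : ℕ) (h : i < C.nodes.length), k < i ∧ k ∈ (C.nodes[i]).wires := by
  unfold Prog.wired
  rw [Finset.mem_filter, Finset.mem_range]
  constructor
  · rintro ⟨-, h⟩; exact h
  · rintro ⟨i, h, h1, h2⟩
    exact ⟨h1.trans h, i, h, h1, h2⟩

/-- if the nodes read by NOT gates and arbitrary gates do not change then the values of the nodes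
are computed by the frozen circuit -/
theorem val_eq_mval' (C : Prog n) {x y : Fin n → Bool} (k : ℕ)
    (h : ∀ k' ∈ C.wired, k' < k → val C y k' = val C x k') : val C y k = mval C x y k := by
  induction k using Nat.strong_induction_on with
  | _ k ih =>
    by_cases hk : k < C.nodes.length
    · rw [mval_eq _ _ _ _ hk]
      split_ifs with h1
      · rw [val_eq _ _ _ hk, val_eq _ _ _ hk, node_eval_input _ h1 y x]
        refine node_eval_congr _ _ _ _ fun j hj => ?_
        split_ifs with hjk
        · rcases hj with hj | hj
          · exfalso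
            revert hj h1
            cases C.nodes[k] <;> simp [isFar, Node.ins]
          · exact h j (mem_wired.2 ⟨k, hk, hjk, hj⟩) hjk
        · rfl
      · rw [val_eq _ _ _ hk]
        refine node_eval_congr _ _ _ _ fun j hj => ?_
        split_ifs with hjk
        · exact ih j hjk fun k' hk' hlt => h k' hk' (hlt.trans hjk)
        · rfl
    · rw [mval_ge _ _ _ _ (by omega), val_ge _ _ _ (by omega)]

/-- the nodes whose change is noticed -/
noncomputable def watch' (C : Prog n) (x : Fin n → Bool) : Finset ℕ :=
  (insert C.out C.wired).filter fun k => val C x k = false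

/-- **The noticer**: for inputs above `x`, a monotone function of small depth tells whether
something has changed; if not, then the output is the same. -/
theorem exists_notice' (C : Prog n) {s : ℕ} (hs : C.wired.card + 1 ≤ 2 ^ s) (x : Fin n → Bool) :
    ∃ H : (Fin n → Bool) → Bool, MDep (C.depth + s) H ∧
      ∀ y, (∀ i, x i = true → y i = true) →
        (H y = true ∧ (C.Change x y ∨ (C.eval x = false ∧ C.eval y = true))) ∨
        (H y = false ∧ C.eval x = C.eval y) := by
  classical
  refine ⟨fun y => decide (∃ k ∈ watch' C x, mval C x y k = true),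
    MDep.orSet _ _ (fun k _ => (mdep_mval C x k).mono (dep_le C k))
      ((Finset.card_filter_le _ _).trans ((Finset.card_insert_le _ _).trans hs)), ?_⟩
  intro y hy
  have hmono : ∀ k, val C x k = true → mval C x y k = true := by
    intro k hk
    refine mval_mono C x hy _ ?_
    rw [mval_self]
    exact hk
  have hcv : C.Change x y ↔ ∃ k ∈ C.wired, val C x k ≠ val C y k := Iff.rfl
  by_cases hc : C.Change x y
  · left
    refine ⟨?_, Or.inl hc⟩
    rw [decide_eq_true_eq]
    rw [hcv] at hc
    have hex : ∃ k, k ∈ C.wired ∧ val C x k ≠ val C y k := by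
      obtain ⟨k, hk, h⟩ := hc
      exact ⟨k, hk, h⟩
    set k := Nat.find hex with hk
    have h1 := Nat.find_spec hex
    rw [← hk] at h1
    have h2 : val C y k = mval C x y k := by
      refine val_eq_mval' C k fun k' hk' hlt => ?_
      by_contra h
      exact Nat.find_min hex hlt ⟨hk', fun e => h e.symm⟩
    have h3 : val C x k = false := by
      by_contra h
      rw [Bool.not_eq_false] at h
      apply h1.2
      rw [h, h2]
      exact (hmono k h).symm
    have h4 : val C y k = true := by
      by_contra h
      rw [Bool.not_eq_true] at h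
      exact h1.2 (by rw [h3, h])
    refine ⟨k, ?_, by rw [← h2]; exact h4⟩
    unfold watch'
    rw [Finset.mem_filter]
    exact ⟨Finset.mem_insert_of_mem h1.1, h3⟩
  · have hno : ∀ k ∈ C.wired, val C y k = val C x k := by
      intro k hk
      by_contra h
      exact hc (hcv.2 ⟨k, hk, fun e => h e.symm⟩)
    have hv : ∀ k, val C y k = mval C x y k := fun k =>
      val_eq_mval' C k fun k' hk' _ => hno k' hk'
    have hev : ∀ z, C.eval z = val C z C.out := fun z => rfl
    by_cases hH : ∃ k ∈ watch' C x, mval C x y k = true
    · left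
      refine ⟨by rw [decide_eq_true_eq]; exact hH, Or.inr ?_⟩
      obtain ⟨k, hk, h1⟩ := hH
      unfold watch' at hk
      rw [Finset.mem_filter, Finset.mem_insert] at hk
      obtain ⟨hk1 | hk1, hk2⟩ := hk
      · rw [hev, hev, ← hk1, hv]
        exact ⟨hk2, h1⟩
      · exfalso
        rw [← hv, hno k hk1, hk2] at h1
        exact absurd h1 (by decide)
    · right
      refine ⟨by rw [decide_eq_false_iff_not]; exact hH, ?_⟩
      rw [hev, hev]
      cases hx : val C x C.out
      · by_contra h
        have h5 : val C y C.out = true := by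
          cases hy' : val C y C.out
          · exact absurd hy'.symm h
          · rfl
        apply hH
        refine ⟨C.out, ?_, by rw [← hv]; exact h5⟩
        unfold watch'
        rw [Finset.mem_filter]
        exact ⟨Finset.mem_insert_self _ _, hx⟩
      · rw [hv]
        exact (hmono _ hx).symm

theorem wired_eq (C : Prog n) (lev : ℕ → ℕ) : C.wired = cuts C lev := by
  ext k
  rw [mem_wired]
  unfold cuts
  rw [Finset.mem_biUnion]
  constructor
  · rintro ⟨i, h, h1, h2⟩
    exact ⟨lev i, Finset.mem_range.2 (lev_lt_top (by omega)), mem_cut.2 ⟨i, h, h1, rfl, h2⟩⟩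
  · rintro ⟨j, _, hk⟩
    obtain ⟨i, h, h1, _, h3⟩ := mem_cut.1 hk
    exact ⟨i, h, h1, h3⟩

theorem card_wired (C : Prog n) (lev : ℕ → ℕ) : C.wired.card + 1 ≤ C.combos lev := by
  rw [wired_eq C lev]
  exact card_cuts

/-- in a layered circuit a change moves the clock -/
theorem clk_of_change {C : Prog n} {lev : ℕ → ℕ} (hL : C.Layered lev) {x y : Fin n → Bool}
    (hxy : ∀ i, x i = true → y i = true) :
    clk C lev x (top C lev) ≤ clk C lev y (top C lev) ∧
      (C.Change x y → clk C lev x (top C lev) < clk C lev y (top C lev)) := by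
  rcases clk_step hL hxy (top C lev) with ⟨h1, h2⟩ | ⟨h1, _⟩
  · refine ⟨h2.le, fun hc => ?_⟩
    exfalso
    obtain ⟨k, hk, hne⟩ := hc
    rw [wired_eq C lev] at hk
    unfold cuts at hk
    rw [Finset.mem_biUnion] at hk
    obtain ⟨j, hj, hkj⟩ := hk
    exact hne (h1 j (Finset.mem_range.1 hj) k hkj).symm
  · exact ⟨h1.le, fun _ => h1⟩

theorem activity_combos {C : Prog n} {lev : ℕ → ℕ} (hL : C.Layered lev)
    (π : Equiv.Perm (Fin n)) : 1 + C.activity π ≤ C.combos lev := by
  classical
  unfold Prog.activity
  set X : ℕ → Fin n → Bool := fun i a => decide ((π a : ℕ) < i) with hX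
  have hXm : ∀ j i, X j i = true → X (j + 1) i = true := by
    intro j i h
    simp only [hX, decide_eq_true_eq] at h ⊢
    omega
  have key : ∀ T, C.changes X T ≤ clk C lev (X T) (top C lev) := by
    intro T
    induction T with
    | zero => simp [Prog.changes]
    | succ T ih =>
      have h1 := clk_of_change hL (hXm T)
      unfold Prog.changes at ih ⊢
      rw [Finset.range_add_one, Finset.filter_insert]
      split_ifs with h
      · rw [Finset.card_insert_of_notMem (by simp)]
        have := h1.2 h
        omega
      · have := h1.1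
        omega
  have h2 := key n
  have h3 := clk_lt (C := C) (lev := lev) (X n) (top C lev)
  rw [prod_top] at h3
  omega

end Pool.Agent.V8H45.NR
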